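import Pool.Agent.Helper16.AZ.Stmts

/-!
Module TWP: two primes of one dyadic block.
-/

open Finset Filter MeasureTheory Topology
open scoped ComplexConjugate InnerProductSpace

namespace Pool.Agent.Helper16.AZ

open Pool.Agent.Helper16.MD (MS PB Am RW Rich)
open UnitAddTorus (mFourier)

/-- distance to the nearest integer and the distance to one -/
theorem twp_dist (x : ℝ) :
    4 * |x - (round x : ℤ)| ≤ ‖Complex.exp (Complex.I * ((2 * Real.pi * x : ℝ) : ℂ)) - 1‖ := by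
  rw [Complex.norm_exp_I_mul_ofReal_sub_one]
  have h1 : |x - (round x : ℤ)| ≤ 1 / 2 := abs_sub_round x
  have hpi := Real.pi_pos
  have h2 : |Real.pi * (x - (round x : ℤ))| ≤ Real.pi / 2 := by
    rw [abs_mul, abs_of_pos hpi]
    nlinarith
  have h3 := Real.mul_abs_le_abs_sin h2
  have h4 : |Real.sin (Real.pi * (x - (round x : ℤ)))| = |Real.sin (2 * Real.pi * x / 2)| := by
    have e : Real.pi * (x - (round x : ℤ)) = 2 * Real.pi * x / 2 - (round x : ℤ) * Real.pi := by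
      ring
    rw [e, Real.sin_sub_int_mul_pi, abs_mul]
    have : |(-1 : ℝ) ^ (round x)| = 1 := by
      rw [abs_zpow]; simp
    rw [this, one_mul]
  rw [h4, abs_mul, abs_of_pos hpi] at h3
  rw [Real.norm_eq_abs, abs_mul, abs_of_pos (by norm_num : (0 : ℝ) < 2)]
  have h5 : 2 / Real.pi * (Real.pi * |x - (round x : ℤ)|) = 2 * |x - (round x : ℤ)| := by
    field_simp
  rw [h5] at h3
  linarith

theorem st_TWP : ST_TWP := by
  intro i p p' z a hp hp' hpp h1 h2 h3 h4 hz ha hia hzp hzp'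
  obtain ⟨θ, hθ⟩ := (Complex.norm_eq_one_iff z).1 hz
  have hpi := Real.pi_pos
  obtain ⟨s, hs⟩ : ∃ s : ℝ, s = θ / (2 * Real.pi) := ⟨_, rfl⟩
  have hθs : θ = 2 * Real.pi * s := by rw [hs]; field_simp
  have hpow : ∀ q : ℕ, z ^ q = Complex.exp (Complex.I * ((2 * Real.pi * (q * s) : ℝ) : ℂ)) := by
    intro q
    rw [← hθ, ← Complex.exp_nat_mul, hθs]
    congr 1
    push_cast
    ring
  have e1 := twp_dist (p * s)
  have e2 := twp_dist (p' * s)
  rw [← hpow] at e1 e2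
  obtain ⟨m, hm⟩ : ∃ m : ℤ, m = round ((p : ℝ) * s) := ⟨_, rfl⟩
  obtain ⟨m', hm'⟩ : ∃ m' : ℤ, m' = round ((p' : ℝ) * s) := ⟨_, rfl⟩
  rw [← hm] at e1
  rw [← hm'] at e2
  have f1 : |(p : ℝ) * s - m| ≤ a / 4 := by linarith
  have f2 : |(p' : ℝ) * s - m'| ≤ a / 4 := by linarith
  have g1 : (p : ℝ) ≤ 2 ^ (i + 1) := by exact_mod_cast h3
  have g2 : (p' : ℝ) ≤ 2 ^ (i + 1) := by exact_mod_cast h4
  have g0 : (2 : ℝ) ^ (i + 1) = 2 * 2 ^ i := by rw [pow_succ]; ring
  have g3 : (0 : ℝ) < 2 ^ i := by positivity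
  have g4 : (0 : ℝ) < p := by exact_mod_cast hp.pos
  have g5 : (0 : ℝ) < p' := by exact_mod_cast hp'.pos
  have k1 : |((p' * m - p * m' : ℤ) : ℝ)| < 1 := by
    have e : ((p' * m - p * m' : ℤ) : ℝ) = p * ((p' : ℝ) * s - m') - p' * ((p : ℝ) * s - m) := by
      push_cast; ring
    rw [e]
    have q1 : |(p : ℝ) * ((p' : ℝ) * s - m') - p' * ((p : ℝ) * s - m)| ≤
        p * (a / 4) + p' * (a / 4) := by
      refine le_trans (abs_sub _ _) ?_
      rw [abs_mul, abs_mul, abs_of_pos g4, abs_of_pos g5]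
      exact add_le_add (mul_le_mul_of_nonneg_left f2 g4.le)
        (mul_le_mul_of_nonneg_left f1 g5.le)
    have q2 : (p : ℝ) * (a / 4) + p' * (a / 4) ≤ 2 ^ i * a := by
      rw [g0] at g1 g2
      nlinarith
    linarith
  have k2 : p' * m - p * m' = (0 : ℤ) := by
    have : |(p' * m - p * m' : ℤ)| < 1 := by exact_mod_cast k1
    exact Int.abs_lt_one_iff.1 this
  have k3 : (p : ℤ) ∣ p' * m := ⟨m', by linarith⟩
  have k4 : IsCoprime (p : ℤ) (p' : ℤ) := by
    rw [Nat.isCoprime_iff_coprime]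
    exact (Nat.coprime_primes hp hp').2 hpp
  obtain ⟨m0, hm0⟩ := k4.dvd_of_dvd_mul_left k3
  have k5 : |s - m0| ≤ a / (4 * 2 ^ i) := by
    have e : (p : ℝ) * s - m = p * (s - m0) := by
      rw [hm0]; push_cast; ring
    rw [e, abs_mul, abs_of_pos g4] at f1
    have g6 : (2 : ℝ) ^ i ≤ p := by exact_mod_cast h1.le
    rw [le_div_iff₀ (by positivity)]
    have g7 : |s - m0| * 2 ^ i ≤ |s - m0| * p := mul_le_mul_of_nonneg_left g6 (abs_nonneg _)
    linarith
  have k6 : z - 1 = Complex.exp (Complex.I * ((2 * Real.pi * (s - m0) : ℝ) : ℂ)) - 1 := by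
    have h0 := hpow 1
    rw [pow_one] at h0
    have e : Complex.I * ((2 * Real.pi * ((1 : ℕ) * s) : ℝ) : ℂ) =
        Complex.I * ((2 * Real.pi * (s - m0) : ℝ) : ℂ) + m0 * (2 * Real.pi * Complex.I) := by
      push_cast
      ring
    rw [h0, e, Complex.exp_add, Complex.exp_int_mul_two_pi_mul_I, mul_one]
  rw [k6]
  refine le_trans (Real.norm_exp_I_mul_ofReal_sub_one_le) ?_
  rw [Real.norm_eq_abs, abs_mul, abs_of_pos (by positivity : (0 : ℝ) < 2 * Real.pi)]
  have hp4 := Real.pi_le_four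
  calc 2 * Real.pi * |s - m0| ≤ 2 * 4 * (a / (4 * 2 ^ i)) := by
        apply mul_le_mul _ k5 (abs_nonneg _) (by norm_num)
        linarith
    _ = 2 * a / 2 ^ i := by field_simp

end Pool.Agent.Helper16.AZ
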